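import Mathlib
import Pool.Agent.Helper33.Lap.Main

/-!
# Laplacian subalgebras of compact homogeneous spaces are finitely generated

`M` is a compact connected smooth Riemannian manifold (modelled on the finite dimensional real
vector space `E`; the Riemannian metric is the smooth family of inner products on the tangent
spaces, and the distance of `M` is the Riemannian distance).
-/

open scoped Manifold ContDiff
open MeasureTheory Bundle

namespace Pool.Agent.Results.MP_517bc8_gt.LaplacianFG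

/-- The vector of a finite dimensional Euclidean space which represents a linear form. -/
noncomputable def riesz {V : Type} [NormedAddCommGroup V] [InnerProductSpace ℝ V]
    [FiniteDimensional ℝ V] (l : V →L[ℝ] ℝ) : V :=
  letI : CompleteSpace V := FiniteDimensional.complete ℝ V
  (InnerProductSpace.toDual ℝ V).symm l

variable {E : Type} [NormedAddCommGroup E] [NormedSpace ℝ E] [FiniteDimensional ℝ E]
  {M : Type} [MetricSpace M] [ChartedSpace E M] [IsManifold 𝓘(ℝ, E) ∞ M]
  [RiemannianBundle (fun x : M => TangentSpace 𝓘(ℝ, E) x)]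
  [IsContMDiffRiemannianBundle 𝓘(ℝ, E) ∞ E (fun x : M => TangentSpace 𝓘(ℝ, E) x)]
  [IsRiemannianManifold 𝓘(ℝ, E) M]

variable (E) in
/-- The Riemannian gradient of `f` at `x`: the tangent vector representing the differential. -/
noncomputable def grad (f : M → ℝ) (x : M) : TangentSpace 𝓘(ℝ, E) x :=
  letI : FiniteDimensional ℝ (TangentSpace 𝓘(ℝ, E) x) := inferInstanceAs (FiniteDimensional ℝ E)
  riesz (V := TangentSpace 𝓘(ℝ, E) x) (mfderiv 𝓘(ℝ, E) 𝓘(ℝ, ℝ) f x)

variable (E) in
/-- The map `φ` preserves the Riemannian metric. -/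
def PreservesMetric (φ : M → M) : Prop :=
  ∀ (p : M) (v : TangentSpace 𝓘(ℝ, E) p), ‖mfderiv 𝓘(ℝ, E) 𝓘(ℝ, E) φ p v‖ = ‖v‖

variable (E M) in
/-- The group of isometries of `M` (diffeomorphisms whose differentials preserve the Riemannian
metric) acts transitively. -/
def IsHomogeneous : Prop :=
  ∀ x y : M, ∃ φ : M ≃ₘ^∞⟮𝓘(ℝ, E), 𝓘(ℝ, E)⟯ M, PreservesMetric E φ ∧ φ x = y

variable [MeasurableSpace M] [BorelSpace M]

variable (E M) in
/-- The Riemannian volume, up to a constant factor: the Hausdorff measure of dimension `dim M`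
of the Riemannian distance. -/
noncomputable def vol : Measure M := Measure.hausdorffMeasure (Module.finrank ℝ E : ℝ)

variable (E) in
/-- `f` and `h` are smooth and `Δ f = h`, where `Δ = -div grad` (in weak form, that is, as
Green's formula against all smooth functions `φ` on the closed manifold `M`). -/
def IsLaplacian (f h : M → ℝ) : Prop :=
  ContMDiff 𝓘(ℝ, E) 𝓘(ℝ, ℝ) ∞ f ∧ ContMDiff 𝓘(ℝ, E) 𝓘(ℝ, ℝ) ∞ h ∧
  ∀ φ : M → ℝ, ContMDiff 𝓘(ℝ, E) 𝓘(ℝ, ℝ) ∞ φ →
    ∫ x, inner ℝ (grad E f x) (grad E φ x) ∂(vol E M) = ∫ x, h x * φ x ∂(vol E M)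

variable (E M) in
/-- The space `ℝ[M]` of algebraic functions: finite sums of eigenfunctions of `Δ`. -/
def algebraicFunctions : Submodule ℝ (M → ℝ) :=
  Submodule.span ℝ {f | ∃ c : ℝ, IsLaplacian E f (c • f)}

set_option linter.unusedSectionVars false

theorem isLaplacian_iff (f h : C^∞⟮𝓘(ℝ, E), M; ℝ⟯) :
    IsLaplacian E f h ↔ Pool.Agent.Helper33.Lap.IsLaplacian f h :=
  ⟨fun H φ => H.2.2 φ φ.contMDiff, fun H => ⟨f.contMDiff, h.contMDiff, fun φ hφ => H ⟨φ, hφ⟩⟩⟩

/-- Every Laplacian subalgebra of a compact homogeneous space is finitely generated. -/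
theorem result [CompactSpace M] [ConnectedSpace M] (hM : IsHomogeneous E M)
    (A : Subalgebra ℝ (M → ℝ))
    (hA : ∀ f ∈ A, f ∈ algebraicFunctions E M)
    (hΔ : ∀ f ∈ A, ∀ h : M → ℝ, IsLaplacian E f h → h ∈ A) :
    A.FG := by
  let Ψ : C^∞⟮𝓘(ℝ, E), M; ℝ⟯ →ₐ[ℝ] (M → ℝ) := ContMDiffMap.coeFnAlgHom
  have hspan : algebraicFunctions E M =
      (Pool.Agent.Helper33.Lap.algebraicFunctions E M).map Ψ.toLinearMap := by
    unfold algebraicFunctions Pool.Agent.Helper33.Lap.algebraicFunctions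
    rw [Submodule.map_span]
    congr 1
    ext f
    constructor
    · rintro ⟨c, hc⟩
      have hf : ContMDiff 𝓘(ℝ, E) 𝓘(ℝ, ℝ) ∞ f := hc.1
      let f' : C^∞⟮𝓘(ℝ, E), M; ℝ⟯ := ⟨f, hf⟩
      exact ⟨f', ⟨c, (isLaplacian_iff f' (c • f')).mp hc⟩, rfl⟩
    · rintro ⟨f, ⟨c, hc⟩, rfl⟩
      exact ⟨c, (isLaplacian_iff f (c • f)).mpr hc⟩
  have hmap : A = (A.comap Ψ).map Ψ := by
    apply le_antisymm
    · intro f hf
      have h1 := hA f hf
      rw [hspan] at h1
      obtain ⟨g, -, rfl⟩ := h1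
      exact ⟨g, hf, rfl⟩
    · rintro _ ⟨g, hg, rfl⟩
      exact hg
  have hinj : Function.Injective Ψ := by
    intro f g h
    ext x
    exact congrFun h x
  rw [hmap]
  refine Subalgebra.FG.map Ψ (Pool.Agent.Helper33.Lap.main hM _ ?_ ?_)
  · intro f hf
    have h1 := hA _ hf
    rw [hspan] at h1
    obtain ⟨g, hg, hgf⟩ := h1
    rwa [← hinj hgf]
  · intro f hf h hh
    exact hΔ _ hf _ ((isLaplacian_iff f h).mpr hh)

end Pool.Agent.Results.MP_517bc8_gt.LaplacianFG
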